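import Pool.Agent.W792.WA.Stm4

/-!
Affine change of the energy (project WA).
-/

set_option autoImplicit false

namespace Pool.Agent.W338.WA.Aff

open MeasureTheory Filter Pool.Agent.W792.LL Pool.Agent.W792.WA UnitAddTorus
open scoped Topology ENNReal

noncomputable section

local instance : MeasureSpace UnitAddCircle := ⟨AddCircle.haarAddCircle⟩

local instance : Measure.IsAddHaarMeasure (volume : Measure UnitAddCircle) :=
  inferInstanceAs (Measure.IsAddHaarMeasure AddCircle.haarAddCircle)

local instance : IsProbabilityMeasure (volume : Measure UnitAddCircle) :=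
  inferInstanceAs (IsProbabilityMeasure AddCircle.haarAddCircle)

variable {d : ℕ}

/-- Complexification of a symbol. -/
def cx (K : C(UnitAddTorus (Fin d), ℝ)) : C(UnitAddTorus (Fin d), ℂ) :=
  ⟨fun k => (K k : ℂ), by fun_prop⟩

lemma hopK_sq (K : C(UnitAddTorus (Fin d), ℝ)) :
    Summable (fun x : Fin d → ℤ => ‖hopK K x‖ ^ 2) := by
  have h := hasSum_sq_mFourierCoeff ((cx K).toLp 2 (volume : Measure (UnitAddTorus (Fin d))) ℂ)
  simp only [mFourierCoeff_toLp] at h
  exact h.summable

lemma summable_conv (K : C(UnitAddTorus (Fin d), ℝ)) (w : (Fin d → ℤ) → ℂ)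
    (hw : Summable (fun y => ‖w y‖ ^ 2)) (y : Fin d → ℤ) :
    Summable (fun y' => hopK K (y - y') * w y') := by
  have h1 : Summable (fun y' => ‖hopK K (y - y')‖ ^ 2) :=
    (Equiv.subLeft y).summable_iff.2 (hopK_sq K)
  refine Summable.of_norm_bounded (h1.add hw) fun y' => ?_
  rw [norm_mul]
  nlinarith [sq_nonneg (‖hopK K (y - y')‖ - ‖w y'‖), sq_nonneg (‖hopK K (y - y')‖),
    sq_nonneg (‖w y'‖)]

lemma integral_mF (n : Fin d → ℤ) :
    ∫ t : UnitAddTorus (Fin d), mFourier (-n) t = if n = 0 then (1 : ℂ) else 0 := by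
  have h := orthonormal_iff_ite.mp (orthonormal_mFourier (d := Fin d)) n 0
  simp only [ContinuousMap.inner_toLp, ← mFourier_neg, ← mFourier_add, zero_add] at h
  exact h

lemma hopK_aff (K : C(UnitAddTorus (Fin d), ℝ)) (α m : ℝ) (n : Fin d → ℤ) :
    hopK (α • (K - ContinuousMap.const _ m)) n =
      α * (hopK K n - if n = 0 then (m : ℂ) else 0) := by
  unfold hopK mFourierCoeff
  have e : ∀ t : UnitAddTorus (Fin d), mFourier (-n) t •
      (((α • (K - ContinuousMap.const _ m) : C(UnitAddTorus (Fin d), ℝ)) t : ℝ) : ℂ) =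
      (α : ℂ) * (mFourier (-n) t • (K t : ℂ) - (m : ℂ) * mFourier (-n) t) := by
    intro t
    rw [ContinuousMap.smul_apply, ContinuousMap.sub_apply, ContinuousMap.const_apply,
      smul_eq_mul, smul_eq_mul, smul_eq_mul]
    push_cast
    ring
  rw [integral_congr_ae (Filter.Eventually.of_forall e), integral_const_mul, integral_sub,
    integral_const_mul, integral_mF]
  · congr 2
    split_ifs <;> simp
  · have hc : Continuous fun t : UnitAddTorus (Fin d) => mFourier (-n) t • (K t : ℂ) := by
      fun_prop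
    exact hc.integrable_of_hasCompactSupport (HasCompactSupport.of_compactSpace _)
  · have hc : Continuous fun t : UnitAddTorus (Fin d) => (m : ℂ) * mFourier (-n) t := by
      fun_prop
    exact hc.integrable_of_hasCompactSupport (HasCompactSupport.of_compactSpace _)

lemma sol_lhs (K : C(UnitAddTorus (Fin d), ℝ)) (α m lam : ℝ) (v : (Fin d → ℤ) → ℝ) (z : ℂ)
    (hα : (α : ℂ) ≠ 0) (w : (Fin d → ℤ) → ℂ) (hw : Summable (fun y => ‖w y‖ ^ 2))
    (y : Fin d → ℤ) :
    ∑' y', hopK (α • (K - ContinuousMap.const _ m)) (y - y') * (w y' / α) +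
      ((α * lam) * v y : ℝ) * (w y / α) - (α * (z - m)) * (w y / α) =
    ∑' y', hopK K (y - y') * w y' + (lam * v y : ℝ) * w y - z * w y := by
  have e : ∀ y', hopK (α • (K - ContinuousMap.const _ m)) (y - y') * (w y' / α) =
      hopK K (y - y') * w y' - (if y' = y then (m : ℂ) * w y' else 0) := by
    intro y'
    rw [hopK_aff]
    by_cases h : y' = y
    · subst h
      rw [sub_self, if_pos rfl, if_pos rfl]
      field_simp
    · have h2 : ¬ (y - y' = 0) := fun h3 => h (sub_eq_zero.1 h3).symm
      rw [if_neg h2, if_neg h]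
      field_simp
      ring
  have hs2 : Summable (fun y' => if y' = y then (m : ℂ) * w y' else 0) :=
    summable_of_ne_finset_zero (s := {y}) fun b hb => by
      rw [if_neg (fun h => hb (Finset.mem_singleton.2 h))]
  rw [tsum_congr e, (summable_conv K w hw y).tsum_sub hs2, tsum_ite_eq]
  push_cast
  field_simp
  ring

lemma sol_iff (K : C(UnitAddTorus (Fin d), ℝ)) (α m lam : ℝ) (v : (Fin d → ℤ) → ℝ) (z : ℂ)
    (x : Fin d → ℤ) (hα : 0 < α) (w : (Fin d → ℤ) → ℂ) :
    Sol (hopK (α • (K - ContinuousMap.const _ m))) (α * lam) v (α * (z - m)) x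
      (fun y => w y / α) ↔ Sol (hopK K) lam v z x w := by
  have hα' : (α : ℂ) ≠ 0 := by exact_mod_cast hα.ne'
  have hs : Summable (fun y => ‖w y / (α : ℂ)‖ ^ 2) ↔ Summable (fun y => ‖w y‖ ^ 2) := by
    have e : (fun y => ‖w y / (α : ℂ)‖ ^ 2) = fun y => ‖w y‖ ^ 2 * (α ^ 2)⁻¹ := by
      funext y
      rw [norm_div, Complex.norm_real, Real.norm_of_nonneg hα.le, div_pow, div_eq_mul_inv]
    rw [e, summable_mul_right_iff (by positivity)]
  unfold Sol
  rw [hs]
  constructor
  · rintro ⟨h1, h2⟩
    exact ⟨h1, fun y => by rw [← sol_lhs K α m lam v z hα' w h1 y]; exact h2 y⟩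
  · rintro ⟨h1, h2⟩
    refine ⟨h1, fun y => ?_⟩
    have := sol_lhs K α m lam v z hα' w h1 y
    rw [h2 y] at this
    exact this

lemma map_vol {α : ℝ} (hα : 0 < α) (m : ℝ) :
    Measure.map (fun E : ℝ => α * (E - m)) volume = ENNReal.ofReal α⁻¹ • volume := by
  have e : (fun E : ℝ => α * (E - m)) = (fun t => α * t) ∘ (fun E => E - m) := rfl
  rw [e, ← Measure.map_map (by fun_prop) (by fun_prop),
    (measurePreserving_sub_right (volume : Measure ℝ) m).map_eq,
    Real.map_volume_mul_left hα.ne', abs_of_pos (by positivity)]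

theorem main : S_AFF := by
  intro d K α m lam a b v hα H x
  obtain ⟨μ1, h1, hfin, hz, hm, hpos, hd⟩ := H x
  have hα' : (α : ℂ) ≠ 0 := by exact_mod_cast hα.ne'
  have hφ : Measurable (fun t : ℝ => m + t / α) := by fun_prop
  have hψ : Measurable (fun E : ℝ => α * (E - m)) := by fun_prop
  have hφψ : ∀ E : ℝ, m + (α * (E - m)) / α = E := by
    intro E
    field_simp
    ring
  have hmem : ∀ E : ℝ, E ∈ Set.Ioo (m + a / α) (m + b / α) ↔ α * (E - m) ∈ Set.Ioo a b := by
    intro E
    rw [Set.mem_Ioo, Set.mem_Ioo]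
    have e1 : m + a / α < E ↔ a < α * (E - m) := by
      rw [← lt_sub_iff_add_lt', div_lt_iff₀' hα]
    have e2 : E < m + b / α ↔ α * (E - m) < b := by
      rw [← sub_lt_iff_lt_add', lt_div_iff₀' hα]
    rw [e1, e2]
  refine ⟨μ1.map (fun t => m + t / α), fun E => α * h1 (α * (E - m)), inferInstance, ?_, ?_, ?_,
    ?_⟩
  · intro z hz0
    have hz1 : 0 < ((α : ℂ) * (z - m)).im := by
      simp only [Complex.mul_im, Complex.ofReal_re, Complex.sub_im, Complex.ofReal_im,
        sub_zero, zero_mul, add_zero]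
      positivity
    obtain ⟨⟨w1, hw1⟩, huniq⟩ := hz _ hz1
    refine ⟨⟨fun y => α * w1 y, ?_⟩, fun w hw => ?_⟩
    · rw [← sol_iff K α m lam v z x hα]
      have e : (fun y => (fun y => (α : ℂ) * w1 y) y / α) = w1 := by
        funext y
        field_simp
      rw [e]
      exact hw1
    · have h2 := huniq _ ((sol_iff K α m lam v z x hα w).2 hw)
      have h3 : w x = α * (w x / α) := by field_simp
      rw [h3, h2, ← integral_const_mul, integral_map hφ.aemeasurable
        (Measurable.aestronglyMeasurable (by fun_prop))]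
      refine integral_congr_ae (Filter.Eventually.of_forall fun t => ?_)
      dsimp only
      have e : (α : ℂ) * ((((m + t / α : ℝ)) : ℂ) - z) = (t : ℂ) - α * (z - m) := by
        push_cast
        field_simp
        ring
      rw [← e, one_div, one_div, mul_inv, ← mul_assoc, mul_inv_cancel₀ hα', one_mul]
  · exact measurable_const.mul (hm.comp hψ)
  · rw [ae_restrict_iff' measurableSet_Ioo] at hpos ⊢
    have h2 : ∀ᵐ t ∂(Measure.map (fun E : ℝ => α * (E - m)) volume),
        t ∈ Set.Ioo a b → 0 < h1 t := by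
      rw [map_vol hα m]
      exact Measure.ae_smul_measure hpos _
    filter_upwards [ae_of_ae_map hψ.aemeasurable h2] with E hE hE2
    exact mul_pos hα (hE ((hmem E).1 hE2))
  · rw [Measure.restrict_map hφ measurableSet_Ioo]
    have e1 : (fun t : ℝ => m + t / α) ⁻¹' Set.Ioo (m + a / α) (m + b / α) = Set.Ioo a b := by
      ext t
      have := hmem (m + t / α)
      rw [Set.mem_preimage, this]
      have e2 : α * (m + t / α - m) = t := by field_simp; ring
      rw [e2]
    rw [e1, hd]
    refine Measure.ext fun s hs => ?_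
    rw [Measure.map_apply hφ hs, withDensity_apply _ (hφ hs), withDensity_apply _ hs,
      Measure.restrict_restrict (hφ hs), Measure.restrict_restrict hs]
    have hS1 : MeasurableSet ((fun t : ℝ => m + t / α) ⁻¹' s ∩ Set.Ioo a b) :=
      (hφ hs).inter measurableSet_Ioo
    have hS2 : MeasurableSet (s ∩ Set.Ioo (m + a / α) (m + b / α)) := hs.inter measurableSet_Ioo
    rw [← lintegral_indicator hS1, ← lintegral_indicator hS2]
    have hF : Measurable (((fun t : ℝ => m + t / α) ⁻¹' s ∩ Set.Ioo a b).indicator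
        (fun t => ENNReal.ofReal (h1 t))) := (hm.ennreal_ofReal).indicator hS1
    have e3 : ∀ E : ℝ, (s ∩ Set.Ioo (m + a / α) (m + b / α)).indicator
        (fun E => ENNReal.ofReal (α * h1 (α * (E - m)))) E = ENNReal.ofReal α *
        (((fun t : ℝ => m + t / α) ⁻¹' s ∩ Set.Ioo a b).indicator
        (fun t => ENNReal.ofReal (h1 t))) (α * (E - m)) := by
      intro E
      by_cases hE : E ∈ s ∩ Set.Ioo (m + a / α) (m + b / α)
      · have hE2 : α * (E - m) ∈ (fun t : ℝ => m + t / α) ⁻¹' s ∩ Set.Ioo a b := by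
          refine ⟨?_, (hmem E).1 hE.2⟩
          rw [Set.mem_preimage, hφψ]
          exact hE.1
        rw [Set.indicator_of_mem hE, Set.indicator_of_mem hE2, ENNReal.ofReal_mul hα.le]
      · have hE2 : ¬ α * (E - m) ∈ (fun t : ℝ => m + t / α) ⁻¹' s ∩ Set.Ioo a b := by
          rintro ⟨g1, g2⟩
          rw [Set.mem_preimage, hφψ] at g1
          exact hE ⟨g1, (hmem E).2 g2⟩
        rw [Set.indicator_of_notMem hE, Set.indicator_of_notMem hE2, mul_zero]
    rw [lintegral_congr e3, lintegral_const_mul' _ _ ENNReal.ofReal_ne_top,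
      ← lintegral_map hF hψ, map_vol hα m, lintegral_smul_measure, smul_eq_mul, ← mul_assoc,
      ← ENNReal.ofReal_mul hα.le, mul_inv_cancel₀ hα.ne', ENNReal.ofReal_one, one_mul]

end

end Pool.Agent.W338.WA.Aff
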